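import Mathlib
import Pool.Agent.H536.OC.C21
import Pool.Agent.H536.OC.SChow

/-!
# Linnik's theorem with almost prime quotients

There is `A` such that for every large `X`, EVERY `d` with `2 ≤ d` and `d ^ A ≤ X` (no exceptional moduli) and EVERY
`1 ≤ a < d` prime to `d` there are at least `X ^ 0.97` primes `p = a + k d ≤ X` for which `k` (or `k / 2`, if `a` and `d`
are both odd, so that `k` must be even) has at most three prime factors, all of them larger than `X ^ 0.11`.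
-/

namespace Pool.Agent.Results.MP_42948a_nt.AlmostPrimeQuotients

theorem result : ∃ A X0 : ℕ, ∀ X : ℕ, X0 ≤ X → ∀ d a : ℕ, 2 ≤ d → 1 ≤ a → a < d → a.Coprime d → d ^ A ≤ X →
    ∃ S : Finset ℕ, (X : ℝ) ^ (97 / 100 : ℝ) ≤ S.card ∧ ∀ p ∈ S, p.Prime ∧ p ≤ X ∧
      ∃ m : ℕ, p = a + (if Even (a + d) then 2 * m else m) * d ∧ 1 < m ∧ ArithmeticFunction.cardFactors m ≤ 3 ∧
        ∀ l : ℕ, l.Prime → l ∣ m → (X : ℝ) ^ (11 / 100 : ℝ) < l :=
  Pool.Agent.H536.OC.chow3 Pool.Agent.H536.OC.U3c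

end Pool.Agent.Results.MP_42948a_nt.AlmostPrimeQuotients
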