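import Mathlib
import Pool.Agent.H532.WG.Poly3

/-!
# The least element of a progression in the random sieve model: all moduli

In the model of Banks, Ford and Tao (Large prime gaps and probabilistic models, Invent. Math. 2023)
the primes are replaced by the random set `R` of the integers `n` which are outside the random
residue class `a_p` modulo `p` for all primes `p ≤ z(n)`, `∏_{p ≤ z(n)} (1 - 1/p) ≈ 1 / log n`.
A class `c` modulo `d` is reduced (for `R`) if it is not contained in the class `a_p` modulo `p` for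
any prime `p` dividing `d`; the other classes contain only finitely many elements of `R`.

Almost surely there is, for every `ε > 0`, a constant `K` such that for ALL moduli `d ≥ 2` and all
reduced classes `c` the least element of `R` in the class `c` modulo `d` is at most
`K d (log d) ^ (2 + ε)`. This is Chowla's conjecture for `R`, in the strong form conjectured for the
primes by Heath-Brown (up to `(log d) ^ ε`).

The proof estimates the probability that a window of `(log d) ^ (2 + ε)` terms of the progression is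
empty, by an exponential moment with a parameter which is smaller than the optimal one for short
windows. It needs that no choice of the classes modulo the primes up to `(log d) ^ (1 + ε / 4)`
removes almost all of the window; this is the linear sieve beyond the exponent `2`.
-/

open Finset MeasureTheory ProbabilityTheory Filter
open scoped ENNReal Topology

namespace Pool.Agent.Results.MP_42948a_nt.ChowlaInTheRandomSieve

/-- `A p`, `p` prime, are independent random variables and `A p` is uniformly distributed on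
`{0, …, p - 1}`. -/
structure RandomClasses {Ω : Type} [MeasurableSpace Ω] (μ : Measure Ω) (A : ℕ → Ω → ℕ) :
    Prop where
  meas : ∀ p, Measurable (A p)
  indep : iIndepFun (fun p : Nat.Primes => A p) μ
  unif : ∀ p : ℕ, p.Prime → ∀ r < p, μ {ω | A p ω = r} = (p : ℝ≥0∞)⁻¹

/-- `V z = ∏_{p ≤ z} (1 - 1 / p)`. -/
noncomputable def V (z : ℕ) : ℝ := ∏ p ∈ (range (z + 1)).filter Nat.Prime, (1 - 1 / (p : ℝ))

/-- The integers `n` are sieved by the primes up to `z n`; this leaves the density `1 / log n`. -/
structure SievingLimit (z : ℕ → ℕ) : Prop where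
  mono : Monotone z
  lim : Tendsto (fun n : ℕ => V (z n) * Real.log n) atTop (𝓝 1)

/-- The sieving limit of Banks, Ford and Tao: the largest `z` with `V z ≥ 1 / log n`. -/
noncomputable def banksFordTao (n : ℕ) : ℕ := sSup {z : ℕ | 1 / Real.log n ≤ V z}

/-- The random sieve: the integers `n` which are not congruent to `a p` modulo `p`, for all primes
`p ≤ z n`. -/
def sieved (z : ℕ → ℕ) (a : ℕ → ℕ) : Set ℕ :=
  {n | ∀ p : ℕ, p.Prime → p ≤ z n → ¬ n ≡ a p [MOD p]}

/-- The class `c` modulo `d` is not contained in the class of `a p` modulo `p`, for all primes `p`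
which divide `d`. -/
def Reduced (a : ℕ → ℕ) (d c : ℕ) : Prop := ∀ p : ℕ, p.Prime → p ∣ d → ¬ c ≡ a p [MOD p]

/-- **Chowla's conjecture in the random sieve model, with the exponent `2 + ε` of the
logarithm.** -/
theorem result :
    -- the model exists
    (∃ μ : Measure (ℕ → ℕ), IsProbabilityMeasure μ ∧ RandomClasses μ (fun p ω => ω p)) ∧
    SievingLimit banksFordTao ∧
    -- the least elements in all reduced classes
    (∀ (Ω : Type) [MeasurableSpace Ω] (μ : Measure Ω)
      [IsProbabilityMeasure μ] (A : ℕ → Ω → ℕ), RandomClasses μ A → ∀ z : ℕ → ℕ,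
      SievingLimit z → ∀ᵐ ω ∂μ, ∀ ε : ℝ, 0 < ε → ∃ K : ℝ, ∀ d : ℕ, 2 ≤ d → ∀ c : ℕ,
        Reduced (fun p => A p ω) d c →
        ∃ n ∈ sieved z (fun p => A p ω), n ≡ c [MOD d] ∧
          (n : ℝ) ≤ K * (d * Real.log d ^ (2 + ε))) := by
  refine ⟨?_, ⟨Pool.Agent.H532.RM.zBFT_mono, Pool.Agent.H532.RM.zBFT_lim⟩, ?_⟩
  · obtain ⟨μ, h1, h2⟩ := Pool.Agent.H532.RM.exists_randomClasses
    exact ⟨μ, h1, ⟨h2.meas, h2.indep, h2.unif⟩⟩
  · intro Ω _ μ _ A hA z hz
    have hA' : Pool.Agent.H532.RM.RandomClasses μ A := ⟨hA.meas, hA.indep, hA.unif⟩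
    have h1 : ∀ k : ℕ, ∀ᵐ ω ∂μ, ∃ K : ℝ, ∀ m : ℕ, 2 ≤ m → ∀ c,
        Pool.Agent.H532.WG.Red (fun p => A p ω) m c →
        Pool.Agent.H532.WG.Has z (fun p => A p ω) m c
          (K * (m * Real.log m ^ (2 + 1 / ((k : ℝ) + 1)))) := fun k =>
      Pool.Agent.H532.WG.all_moduli_K _ (by positivity) μ A hA' z hz.mono hz.lim
    rw [← ae_all_iff] at h1
    filter_upwards [h1] with ω hω ε hε
    obtain ⟨k, hk⟩ := exists_nat_one_div_lt hε
    obtain ⟨K, hK⟩ := hω k
    have hl2 : 0 < Real.log 2 := Real.log_pos (by norm_num)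
    obtain ⟨δ, hδ⟩ : ∃ δ : ℝ, δ = ε - 1 / ((k : ℝ) + 1) := ⟨_, rfl⟩
    have hδ0 : 0 < δ := by rw [hδ]; linarith
    obtain ⟨l, hl⟩ : ∃ l : ℝ, l = Real.log 2 ^ δ := ⟨_, rfl⟩
    have hl0 : 0 < l := by rw [hl]; positivity
    refine ⟨|K| / l, fun d hd c hc => ?_⟩
    obtain ⟨n, h2, h3, h4⟩ := hK d hd c hc
    refine ⟨n, h2, h3, h4.trans ?_⟩
    have hd2 : (2 : ℝ) ≤ d := by exact_mod_cast hd
    have hlog : Real.log 2 ≤ Real.log d := Real.log_le_log (by norm_num) hd2
    have hlog0 : 0 < Real.log d := by linarith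
    have h5 : Real.log d ^ (2 + ε) = Real.log d ^ (2 + 1 / ((k : ℝ) + 1)) * Real.log d ^ δ := by
      rw [← Real.rpow_add hlog0]; congr 1; rw [hδ]; ring
    have h6 : l ≤ Real.log d ^ δ := by
      rw [hl]; exact Real.rpow_le_rpow hl2.le hlog hδ0.le
    rw [h5]
    obtain ⟨X, hX⟩ : ∃ X : ℝ, X = (d : ℝ) * Real.log d ^ (2 + 1 / ((k : ℝ) + 1)) := ⟨_, rfl⟩
    have hX0 : 0 ≤ X := by rw [hX]; positivity
    rw [← mul_assoc (d : ℝ), ← hX]
    calc K * X ≤ |K| * X := by
          have := le_abs_self K
          gcongr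
      _ = |K| / l * (X * l) := by field_simp
      _ ≤ |K| / l * (X * Real.log d ^ δ) := by gcongr

end Pool.Agent.Results.MP_42948a_nt.ChowlaInTheRandomSieve
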