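import Mathlib
import Pool.Agent.H533.GE.Mult2

set_option autoImplicit false

/-!
# The small primes of the multiples of a residue class, every modulus

Let `F = φ(d) log d`, the average distance of the primes of a reduced class modulo `d` near `d`, and let
`lp d a` be the least prime of the class of `a`.  For a reduced class `a` modulo `d` and the integers
`u ≤ U` prime to `d` we consider the small primes of all the classes `u a`.
-/

namespace Pool.Agent.Results.MP_42948a_nt.MultiplesOfAClass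

open Finset

/-- the scale `φ(d) log d` -/
noncomputable def F (d : ℕ) : ℝ := (Nat.totient d : ℝ) * Real.log d

/-- the least prime congruent to `a` modulo `d` -/
noncomputable def lp (d a : ℕ) : ℕ := sInf {p : ℕ | p.Prime ∧ p ≡ a [MOD d]}

/-- `n / φ(n)` -/
noncomputable def G (n : ℕ) : ℝ := (n : ℝ) / Nat.totient n

open Classical in
/-- (1) Windows.  For all `k, m`, `U ≥ 1` and `ε, Λ > 0` there is `c > 0` such that for all large `d`,
all `u 0, ..., u (k - 1) ≤ U` prime to `d` and all `α i ≥ 0`, `α i + ε ≤ Λ`, at least `c φ(d)` reduced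
classes `a` modulo `d` have the properties: for at least a quarter of the `i` the class `u i * a`
contains at least `m` primes in the window `(α i F, (α i + ε) F]`, and every prime up to `Λ F` in one of
the classes `v * a`, `v ≤ U` prime to `d`, belongs to one of these windows, with `u i = v`.

(2) Least primes.  The same for the least primes: if the `u i` are distinct, then for at least `c φ(d)`
classes `a` one has `α i F < p(d, u i * a) ≤ (α i + ε) F` for at least a quarter of the `i`, and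
`p(d, v * a) > Λ F` for all the other `v ≤ U` prime to `d`.

(3) Arbitrary sets.  For all `m`, `ρ, Λ, C > 0` there is `c > 0` such that for every `B` and all large
`d`: let `A ⊆ J` be sets of pairs `(u, v)` of positive integers up to `(log d) ^ B` with `u` prime to
`v d`, such that `∑ G(u) ≥ ρ F / d` over `A`, `∑ G(u) ≤ Λ F / d` over `J`, and
`∑ G(u) G(u') G(|u v' - u' v|) ≤ C (∑ G(u)) ^ 2` over the pairs of different elements of `A`.  Then for
at least `c φ(d)` of the reduced classes, represented by `d ≤ a < 2 d`, at least `m` of the numbers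
`u a + v d` with `(u, v)` in `A` are primes, and no other number `u a + v d` with `(u, v)` in `J`. -/
theorem result :
    (∀ (k m U : ℕ) (ε Λ : ℝ), 1 ≤ U → 0 < ε → 0 < Λ → ∃ c : ℝ, 0 < c ∧ ∃ d₀ : ℕ, ∀ d : ℕ, d₀ ≤ d →
      ∀ u : Fin k → ℕ, (∀ i, 1 ≤ u i ∧ u i ≤ U ∧ (u i).Coprime d) →
      ∀ α : Fin k → ℝ, (∀ i, 0 ≤ α i ∧ α i + ε ≤ Λ) →
      c * (Nat.totient d : ℝ) ≤ (((range d).filter (fun a => a.Coprime d ∧
        k ≤ 4 * ((univ : Finset (Fin k)).filter (fun i => m ≤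
          ((Icc 1 ⌊Λ * F d⌋₊).filter (fun p => p.Prime ∧ p ≡ u i * a [MOD d] ∧
            α i * F d < p ∧ (p : ℝ) ≤ (α i + ε) * F d)).card)).card ∧
        ∀ v : ℕ, 1 ≤ v → v ≤ U → v.Coprime d → ∀ p : ℕ, p.Prime → p ≡ v * a [MOD d] →
          (p : ℝ) ≤ Λ * F d →
          ∃ i, u i = v ∧ α i * F d < p ∧ (p : ℝ) ≤ (α i + ε) * F d)).card : ℝ)) ∧
    (∀ (k U : ℕ) (ε Λ : ℝ), 1 ≤ U → 0 < ε → 0 < Λ → ∃ c : ℝ, 0 < c ∧ ∃ d₀ : ℕ, ∀ d : ℕ, d₀ ≤ d →
      ∀ u : Fin k → ℕ, Function.Injective u → (∀ i, 1 ≤ u i ∧ u i ≤ U ∧ (u i).Coprime d) →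
      ∀ α : Fin k → ℝ, (∀ i, 0 ≤ α i ∧ α i + ε ≤ Λ) →
      c * (Nat.totient d : ℝ) ≤ (((range d).filter (fun a => a.Coprime d ∧
        ∃ I : Finset (Fin k), k ≤ 4 * I.card ∧
          (∀ i ∈ I, α i * F d < lp d (u i * a) ∧ (lp d (u i * a) : ℝ) ≤ (α i + ε) * F d) ∧
          ∀ v : ℕ, 1 ≤ v → v ≤ U → v.Coprime d → (∀ i ∈ I, u i ≠ v) →
            Λ * F d < lp d (v * a))).card : ℝ)) ∧
    (∀ (m : ℕ) (ρ Λ C : ℝ), 0 < ρ → 0 < Λ → 0 < C → ∃ c : ℝ, 0 < c ∧ ∀ B : ℕ, ∃ d₀ : ℕ,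
      ∀ d : ℕ, d₀ ≤ d → ∀ A J : Finset (ℕ × ℕ), A ⊆ J →
      (∀ f ∈ J, (1 ≤ f.1 ∧ 1 ≤ f.2 ∧ f.1.Coprime (f.2 * d)) ∧
        (f.1 : ℝ) ≤ Real.log d ^ B ∧ (f.2 : ℝ) ≤ Real.log d ^ B) →
      ρ * (F d / d) ≤ ∑ f ∈ A, G f.1 → ∑ f ∈ J, G f.1 ≤ Λ * (F d / d) →
      ∑ f ∈ A, ∑ g ∈ A.erase f, G f.1 * G g.1 * G ((f.2 : ℤ) * g.1 - (g.2 : ℤ) * f.1).natAbs ≤
        C * (∑ f ∈ A, G f.1) ^ 2 →
      c * (Nat.totient d : ℝ) ≤ (((Ico d (2 * d)).filter (fun a => a.Coprime d ∧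
        m ≤ (A.filter (fun f => (f.1 * a + f.2 * d).Prime)).card ∧
        ∀ f ∈ J, (f.1 * a + f.2 * d).Prime → f ∈ A)).card : ℝ)) := by
  have main := fun (k m U : ℕ) (ε Λ : ℝ) (hU : 1 ≤ U) (hε : 0 < ε) (hΛ : 0 < Λ) =>
    Pool.Agent.H533.GE.multD k m U ε Λ hU hε hΛ
  refine ⟨main, ?_, ?_⟩
  · intro k U ε Λ hU hε hΛ
    obtain ⟨c, hc, d₀, h⟩ := main k 1 U ε Λ hU hε hΛ
    refine ⟨c, hc, d₀, fun d hd u hinj hu α hα => ?_⟩
    refine (h d hd u hu α hα).trans (Nat.cast_le.2 (card_le_card ?_))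
    intro a ha
    rw [mem_filter] at ha ⊢
    obtain ⟨ha1, ha2, ha3, ha4⟩ := ha
    refine ⟨ha1, ha2, (univ : Finset (Fin k)).filter (fun i => 1 ≤
          ((Icc 1 ⌊Λ * ((Nat.totient d : ℝ) * Real.log d)⌋₊).filter (fun p => p.Prime ∧
            p ≡ u i * a [MOD d] ∧ α i * ((Nat.totient d : ℝ) * Real.log d) < p ∧
            (p : ℝ) ≤ (α i + ε) * ((Nat.totient d : ℝ) * Real.log d))).card), ha3, ?_, ?_⟩
    · intro i hi
      rw [mem_filter] at hi
      obtain ⟨p, hp⟩ := card_pos.1 hi.2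
      rw [mem_filter] at hp
      obtain ⟨-, hp1, hp2, hp3, hp4⟩ := hp
      have hne : {p : ℕ | p.Prime ∧ p ≡ u i * a [MOD d]}.Nonempty := ⟨p, hp1, hp2⟩
      have hmem := Nat.sInf_mem hne
      have hle : lp d (u i * a) ≤ p := Nat.sInf_le ⟨hp1, hp2⟩
      have hleB : (lp d (u i * a) : ℝ) ≤ (α i + ε) * F d := by
        have h1 : (lp d (u i * a) : ℝ) ≤ p := by exact_mod_cast hle
        unfold F
        linarith
      have hF0 : 0 ≤ F d := mul_nonneg (Nat.cast_nonneg _) (Real.log_natCast_nonneg d)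
      have hleΛ : (lp d (u i * a) : ℝ) ≤ Λ * ((Nat.totient d : ℝ) * Real.log d) :=
        hleB.trans (mul_le_mul_of_nonneg_right (hα i).2 hF0)
      obtain ⟨i', h5, h6, -⟩ := ha4 (u i) (hu i).1 (hu i).2.1 (hu i).2.2 (lp d (u i * a)) hmem.1
        hmem.2 hleΛ
      rw [hinj h5] at h6
      exact ⟨h6, hleB⟩
    · intro v hv1 hvU hvd hvI
      by_contra hcon
      rw [not_lt] at hcon
      have hne : {p : ℕ | p.Prime ∧ p ≡ v * a [MOD d]}.Nonempty := by
        by_contra hemp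
        rw [Set.not_nonempty_iff_eq_empty] at hemp
        have hcop : (v * a).Coprime d := Nat.Coprime.mul_left hvd ha2
        rw [mem_range] at ha1
        haveI : NeZero d := ⟨by omega⟩
        obtain ⟨p, -, hp1, hp2⟩ := Nat.forall_exists_prime_gt_and_eq_mod
          ((ZMod.isUnit_iff_coprime (v * a) d).2 hcop) 0
        have hp3 : p ≡ v * a [MOD d] := (ZMod.natCast_eq_natCast_iff _ _ _).1 hp2
        have : p ∈ {p : ℕ | p.Prime ∧ p ≡ v * a [MOD d]} := ⟨hp1, hp3⟩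
        rw [hemp] at this
        exact this
      have hmem := Nat.sInf_mem hne
      obtain ⟨i, h5, h6, h7⟩ := ha4 v hv1 hvU hvd (lp d (v * a)) hmem.1 hmem.2 hcon
      apply hvI i _ h5
      rw [mem_filter]
      refine ⟨mem_univ _, ?_⟩
      rw [Nat.one_le_iff_ne_zero, card_ne_zero]
      refine ⟨lp d (v * a), ?_⟩
      rw [mem_filter, mem_Icc, h5]
      exact ⟨⟨hmem.1.one_le, Nat.le_floor hcon⟩, hmem.1, hmem.2, h6, h7⟩
  · intro m ρ Λ C hρ hΛ hC
    obtain ⟨c, hc, h⟩ := Pool.Agent.H533.GE.arbF m ρ Λ C hρ hΛ hC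
    refine ⟨c, hc, fun B => ?_⟩
    obtain ⟨X₀, h1⟩ := h B
    refine ⟨max X₀ 1, fun d hd A J hAJ hJ h2 h3 h4 => ?_⟩
    have hd1 : 1 ≤ d := (le_max_right _ _).trans hd
    have hd0 : (0 : ℝ) < d := by exact_mod_cast hd1
    have e1 : F d / d = Pool.Agent.H533.QM.Ls d d := by
      unfold F Pool.Agent.H533.QM.Ls Pool.Agent.H533.QM.fr
      ring
    have e2 : Pool.Agent.H533.QM.fr d * d = (Nat.totient d : ℝ) := by
      unfold Pool.Agent.H533.QM.fr
      field_simp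
    rw [e1] at h2 h3
    have key := h1 d ((le_max_left _ _).trans hd) d hd1 le_rfl A J hAJ hJ h2 h3 h4
    rw [e2] at key
    exact key

end Pool.Agent.Results.MP_42948a_nt.MultiplesOfAClass
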