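import Mathlib
import Pool.Agent.H482.WT.Tot
import Pool.Agent.H482.WT.Gau
import Pool.Agent.H482.WT.Tup
import Pool.Agent.H482.WT.Rep
import Pool.Agent.H482.WT.Dua
import Pool.Agent.H482.PP.Roo
import Pool.Agent.H482.PP.Pow
import Pool.Agent.H482.PP.Grp
import Pool.Agent.H482.PP.Ort
import Pool.Agent.H482.PP.Fin

/-!
# Linnik's theorem for products of boundedly many primes from a prescribed set

Let `q ≤ x`, `2 ≤ y ≤ x` and `u = log x / log y`, and let `P` be an arbitrary set of primes in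
`(y ^ θ, y]`, not dividing `q`, with `∑ 1 / p ≥ η`.  The ratios of the elements of `P` generate a
subgroup `H` of `(ZMod q)ˣ` of index at most `exp (C u log (u + 1))`, with `C = C (θ, η)`, and for every
`k ≥ exp (C u log (u + 1))` the products of exactly `k` elements of `P` represent all the residue
classes in the coset `p₀ ^ k H`, `p₀ ∈ P`, that is, all classes which are not excluded by a character
modulo `q` that is constant on `P`.  For `x = q`, `y = q ^ δ` both bounds are constants.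
-/

set_option autoImplicit false

namespace Pool.Agent.Results.MP_42948a_nt.ProductsOfPrescribedPrimes

open Real

open Pool.Agent.H482.WT Pool.Agent.H482.PP

/-- the subgroup of the units modulo `q` generated by the ratios of the elements of `P` -/
def Ratios (q : ℕ) (P : Finset ℕ) : Subgroup (ZMod q)ˣ :=
  Subgroup.closure {u | ∃ p ∈ P, ∃ p' ∈ P, (u : ZMod q) * (p' : ZMod q) = p}

/-- `n` is a product of exactly `k` elements of `P`, repetitions allowed -/
def IsProduct (P : Finset ℕ) (k n : ℕ) : Prop :=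
  ∃ l : List ℕ, l.length = k ∧ (∀ p ∈ l, p ∈ P) ∧ l.prod = n

/-- `exp (C u log (u + 1))` with `u = log x / log y` -/
noncomputable def bound (C : ℝ) (x y : ℕ) : ℝ :=
  exp (C * (log x / log y) * log (log x / log y + 1))

/-- Products of boundedly many primes of a prescribed set. -/
theorem result (θ η : ℝ) (hθ : 0 < θ) (hη : 0 < η) : ∃ C : ℝ, 0 < C ∧
    ∀ x y q : ℕ, 2 ≤ y → y ≤ x → 1 ≤ q → q ≤ x → ∀ P : Finset ℕ,
      (∀ p ∈ P, p.Prime ∧ ¬ p ∣ q ∧ (y : ℝ) ^ θ < p ∧ p ≤ y) → η ≤ ∑ p ∈ P, 1 / (p : ℝ) →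
      ((Ratios q P).index : ℝ) ≤ bound C x y ∧
      ∀ k : ℕ, bound C x y ≤ k → ∀ p₀ ∈ P, ∀ a : (ZMod q)ˣ,
        (∃ n : ℕ, IsProduct P k n ∧ (n : ZMod q) = a) ↔
          ∃ h ∈ Ratios q P, (a : ZMod q) = (p₀ : ZMod q) ^ k * h := by
  obtain ⟨C, hC, h⟩ := structU (mom (lsr tot gau) tup rep) rooT powT grpT ortT dua θ η hθ hη
  refine ⟨C, hC, fun x y q hy hyx hq hqx P hP hηP => ?_⟩
  obtain ⟨h1, h2⟩ := h x y q hy hyx hq hqx P (fun p hp => by
    obtain ⟨a1, a2, a3, a4⟩ := hP p hp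
    exact ⟨a1, (Nat.Prime.coprime_iff_not_dvd a1).2 a2, a3, a4⟩) hηP
  refine ⟨h1, fun k hk p₀ hp₀ a => ?_⟩
  have h3 := h2 k hk p₀ hp₀ a
  constructor
  · rintro ⟨n, ⟨l, hl1, hl2, hl3⟩, hn⟩
    exact h3.1 ⟨l, hl1, hl2, by rw [hl3]; exact hn⟩
  · intro h4
    obtain ⟨l, hl1, hl2, hl3⟩ := h3.2 h4
    exact ⟨l.prod, ⟨l, hl1, hl2, rfl⟩, hl3⟩

end Pool.Agent.Results.MP_42948a_nt.ProductsOfPrescribedPrimes
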